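import Pool.Agent.Helper40.AC.Stmts

/-!
Project AC (MP_4c91e2_ag), packet P13: multiplicativity of additive invariants on modules of
finite projective dimension.
-/

open scoped ContDiff Topology Matrix Kronecker TensorProduct

namespace Pool.Agent.Helper4.AC

open Pool.Agent.Helper40.AC

theorem val_subsing {B G : Type} [CommRing B] [AddCommGroup G] (φ : AddInv B G)
    (Z : Type) [AddCommGroup Z] [Module B Z] [Subsingleton Z] : φ.val Z = 0 := by
  have hf : Module.Finite B Z := inferInstance
  have hp : Module.Projective B Z := inferInstance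
  have e : (Z × Z) ≃ₗ[B] Z :=
    { toFun := fun p => p.1
      map_add' := fun _ _ => rfl
      map_smul' := fun _ _ => rfl
      invFun := fun z => (z, z)
      left_inv := fun _ => Subsingleton.elim _ _
      right_inv := fun _ => rfl }
  have h1 := φ.prod Z Z hf hp hf hp
  rw [φ.congr _ _ e] at h1
  exact left_eq_add.1 h1

theorem proj_pow {B : Type} [CommRing B] (E : Type) [AddCommGroup E] [Module B E]
    (hp : Module.Projective B E) (k : ℕ) : Module.Projective B (Fin k → E) := by
  induction k with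
  | zero => infer_instance
  | succ k ih =>
    have e : (E × (Fin k → E)) ≃ₗ[B] (Fin (k + 1) → E) :=
      Fin.consLinearEquiv B (fun _ : Fin (k + 1) => E)
    exact Module.Projective.of_equiv e

theorem val_pow {B G : Type} [CommRing B] [AddCommGroup G] (φ : AddInv B G)
    (E : Type) [AddCommGroup E] [Module B E] (hf : Module.Finite B E)
    (hp : Module.Projective B E) (k : ℕ) : φ.val (Fin k → E) = (k : ℤ) • φ.val E := by
  induction k with
  | zero => rw [val_subsing φ (Fin 0 → E)]; simp
  | succ k ih =>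
    have e : (E × (Fin k → E)) ≃ₗ[B] (Fin (k + 1) → E) :=
      Fin.consLinearEquiv B (fun _ : Fin (k + 1) => E)
    rw [← φ.congr _ _ e, φ.prod E (Fin k → E) hf hp inferInstance
      (proj_pow E hp k), ih]
    push_cast
    rw [add_smul, one_smul, add_comm]

theorem claim_ok (h : S_ALONG) : S_CLAIM := by
  intro P B X G _ _ _ _ _ ev φ hI hQ n
  induction n with
  | zero =>
    intro S _ _ hS hf _
    exact hQ S hf hS
  | succ n ih =>
    intro S _ _ hS hf hA
    obtain ⟨k, π, hπ⟩ := Module.Finite.exists_fin' P S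
    have hK : HasPD P n (LinearMap.ker π) := hS (Fin k → P) inferInstance π hπ
    have hKf : Module.Finite P (LinearMap.ker π) := inferInstance
    obtain ⟨⟨hBf, hBp⟩, hker⟩ := h P B X ev hI S hf hA
    obtain ⟨hKA, ⟨e⟩⟩ := hker k π hπ
    obtain ⟨⟨hKBf, hKBp⟩, _⟩ := h P B X ev hI (LinearMap.ker π) hKf hKA
    obtain ⟨ρ', hρ'⟩ := ih (LinearMap.ker π) hK hKf hKA
    refine ⟨(k : ℤ) - ρ', fun E _ _ hEf hEp => ?_⟩
    have h1 : φ.val (E ⊗[B] (B ⊗[P] (Fin k → P))) = (k : ℤ) • φ.val E := by
      have e1 : (B ⊗[P] (Fin k → P)) ≃ₗ[B] (Fin k → B) :=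
        TensorProduct.piScalarRight P B B (Fin k)
      have e2 : (E ⊗[B] (Fin k → B)) ≃ₗ[B] (Fin k → E) :=
        TensorProduct.piScalarRight B B E (Fin k)
      rw [φ.congr _ _ ((TensorProduct.congr (LinearEquiv.refl B E) e1).trans e2),
        val_pow φ E hEf hEp k]
    have h2 : φ.val (E ⊗[B] (B ⊗[P] (Fin k → P))) =
        φ.val (E ⊗[B] (B ⊗[P] LinearMap.ker π)) + φ.val (E ⊗[B] (B ⊗[P] S)) := by
      rw [φ.congr _ _ ((TensorProduct.congr (LinearEquiv.refl B E) e).trans
        (TensorProduct.prodRight B B E (B ⊗[P] LinearMap.ker π) (B ⊗[P] S))),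
        φ.prod _ _ inferInstance inferInstance inferInstance inferInstance]
    rw [hρ' E hEf hEp] at h2
    rw [sub_smul, ← h1, h2]
    abel

end Pool.Agent.Helper4.AC
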