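import Pool.Agent.Helper40.AC.Stmts

/-!
Project AC (MP_4c91e2_ag), packet P35: `gW` is a smooth embedding of `W` with image `M`.
-/

open scoped ContDiff Topology Matrix Kronecker TensorProduct

namespace Pool.Agent.Helper4.AC

open Pool.Agent.Helper40.AC

/-- The section of `gW`. -/
noncomputable def sg (z : Idx → ℝ) : WIdx → ℝ :=
  Sum.elim z (Sum.elim
    (fun i : Fin 2 => if i = 0 then rootF (gg (cc z 0) (ss z 0) (cc z 1) (ss z 1))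
      else rootF (gg (cc z 2) (ss z 2) (cc z 3) (ss z 3)))
    (fun p : Fin 2 × Fin 3 => if p.1 = 0 then a1 z p.2 else a2 z p.2))

theorem gW_sg (z : Idx → ℝ) : gW (sg z) = z := rfl

theorem tW_sg0 (z : Idx → ℝ) : tW (sg z) 0 = rootF (gg (cc z 0) (ss z 0) (cc z 1) (ss z 1)) := rfl

theorem tW_sg1 (z : Idx → ℝ) : tW (sg z) 1 = rootF (gg (cc z 2) (ss z 2) (cc z 3) (ss z 3)) := rfl

theorem aW_sg0 (z : Idx → ℝ) : aW (sg z) 0 = a1 z := rfl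

theorem aW_sg1 (z : Idx → ℝ) : aW (sg z) 1 = a2 z := rfl

theorem t0_eq (h : S_ROOT) (w : WIdx → ℝ) (hw : w ∈ WW) :
    tW w 0 = rootF (gg (cc (gW w) 0) (ss (gW w) 0) (cc (gW w) 1) (ss (gW w) 1)) :=
  h.2.1 _ _ hw.2.1

theorem t1_eq (h : S_ROOT) (w : WIdx → ℝ) (hw : w ∈ WW) :
    tW w 1 = rootF (gg (cc (gW w) 2) (ss (gW w) 2) (cc (gW w) 3) (ss (gW w) 3)) :=
  h.2.1 _ _ hw.2.2.1

theorem a0_eq (h : S_ROOT) (w : WIdx → ℝ) (hw : w ∈ WW) : aW w 0 = a1 (gW w) := by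
  funext j
  have h1 := hw.2.2.2.1 j
  rw [t0_eq h w hw] at h1
  have h2 := h.2.2.1 (cc (gW w) 0) (ss (gW w) 0) (cc (gW w) 1) (ss (gW w) 1)
    (rootF (gg (cc (gW w) 0) (ss (gW w) 0) (cc (gW w) 1) (ss (gW w) 1)))
  unfold a1 aT
  rw [eq_div_iff h2.ne', ← h1]
  ring

theorem a1_eq (h : S_ROOT) (w : WIdx → ℝ) (hw : w ∈ WW) : aW w 1 = a2 (gW w) := by
  funext j
  have h1 := hw.2.2.2.2.1 j
  rw [t1_eq h w hw] at h1
  have h2 := h.2.2.1 (cc (gW w) 2) (ss (gW w) 2) (cc (gW w) 3) (ss (gW w) 3)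
    (rootF (gg (cc (gW w) 2) (ss (gW w) 2) (cc (gW w) 3) (ss (gW w) 3)))
  unfold a2 aT
  rw [eq_div_iff h2.ne', ← h1]
  ring

theorem sg_gW (h : S_ROOT) (w : WIdx → ℝ) (hw : w ∈ WW) : sg (gW w) = w := by
  funext i
  rcases i with i | i | ⟨i, j⟩
  · rfl
  · fin_cases i
    · exact (t0_eq h w hw).symm
    · exact (t1_eq h w hw).symm
  · fin_cases i
    · exact (congrFun (a0_eq h w hw) j).symm
    · exact (congrFun (a1_eq h w hw) j).symm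

theorem sg_mem (h : S_ROOT) (z : Idx → ℝ) (hz : z ∈ MM) : sg z ∈ WW := by
  refine ⟨hz.1, rootF_spec _, rootF_spec _, fun j => ?_, fun j => ?_, hz.2⟩
  · rw [gW_sg, tW_sg0, aW_sg0]
    have h2 := h.2.2.1 (cc z 0) (ss z 0) (cc z 1) (ss z 1)
      (rootF (gg (cc z 0) (ss z 0) (cc z 1) (ss z 1)))
    unfold a1 aT
    exact mul_div_cancel₀ _ h2.ne'
  · rw [gW_sg, tW_sg1, aW_sg1]
    have h2 := h.2.2.1 (cc z 2) (ss z 2) (cc z 3) (ss z 3)
      (rootF (gg (cc z 2) (ss z 2) (cc z 3) (ss z 3)))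
    unfold a2 aT
    exact mul_div_cancel₀ _ h2.ne'

theorem aT_smooth {E : Type} [NormedAddCommGroup E] [NormedSpace ℝ E] (h : S_ROOT)
    (c₁ s₁ c₂ s₂ : E → ℝ) (hc₁ : ContDiff ℝ ∞ c₁) (hs₁ : ContDiff ℝ ∞ s₁)
    (hc₂ : ContDiff ℝ ∞ c₂) (hs₂ : ContDiff ℝ ∞ s₂) :
    ContDiff ℝ ∞ (fun z => rootF (gg (c₁ z) (s₁ z) (c₂ z) (s₂ z))) ∧
    ∀ i, ContDiff ℝ ∞ (fun z => aT (c₁ z) (s₁ z) (c₂ z) (s₂ z) i) := by
  have h1 : ContDiff ℝ ∞ (fun z => rootF (gg (c₁ z) (s₁ z) (c₂ z) (s₂ z))) := by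
    refine h.1.comp ?_
    unfold gg
    fun_prop
  refine ⟨h1, fun i => ?_⟩
  set t : E → ℝ := fun z => rootF (gg (c₁ z) (s₁ z) (c₂ z) (s₂ z)) with ht
  have h2 : ∀ z, aT (c₁ z) (s₁ z) (c₂ z) (s₂ z) i =
      bv (c₁ z) (s₁ z) (c₂ z) (s₂ z) (t z) i / Nn (c₁ z) (s₁ z) (c₂ z) (s₂ z) (t z) :=
    fun z => rfl
  simp only [h2]
  refine ContDiff.div ?_ ?_ (fun z => (h.2.2.1 _ _ _ _ _).ne')
  · clear_value t
    fin_cases i
    · simp only [bv, fR, fI, hR, hI, kR, kI, Fin.zero_eta, Matrix.cons_val_zero]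
      fun_prop
    · simp only [bv, fR, fI, hR, hI, kR, kI, Fin.mk_one, Matrix.cons_val_one,
        Matrix.cons_val_zero]
      fun_prop
    · simp only [bv, fR, fI, hR, hI, kR, kI, Fin.reduceFinMk, Matrix.cons_val]
      fun_prop
  · clear_value t
    simp only [Nn, fR, fI, hR, hI, kR, kI]
    fun_prop

theorem sg_smooth (h : S_ROOT) : ContDiff ℝ ∞ sg := by
  have hcc : ∀ j, ContDiff ℝ ∞ (fun z : Idx → ℝ => cc z j) := fun j => contDiff_apply ℝ ℝ _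
  have hss : ∀ j, ContDiff ℝ ∞ (fun z : Idx → ℝ => ss z j) := fun j => contDiff_apply ℝ ℝ _
  have h0 := aT_smooth h _ _ _ _ (hcc 0) (hss 0) (hcc 1) (hss 1)
  have h1 := aT_smooth h _ _ _ _ (hcc 2) (hss 2) (hcc 3) (hss 3)
  refine contDiff_pi.2 fun i => ?_
  rcases i with i | i | ⟨i, j⟩
  · exact contDiff_apply ℝ ℝ i
  · fin_cases i
    · exact h0.1
    · exact h1.1
  · fin_cases i
    · exact h0.2 j
    · exact h1.2 j

theorem gW_smooth : ContDiff ℝ ∞ gW :=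
  contDiff_pi.2 fun i => contDiff_apply ℝ ℝ (Sum.inl i : WIdx)

theorem g_ok (h : S_ROOT) : S_G := by
  refine ⟨⟨gW_smooth.contDiffOn, ?_, ?_⟩, ?_⟩
  · intro w hw w' hw' he
    rw [← sg_gW h w hw, ← sg_gW h w' hw', he]
  · intro γ hγ hmem hd h0
    apply hd
    have h1 : γ = fun s => sg (gW (γ s)) := funext fun s => (sg_gW h _ (hmem s)).symm
    have h2 : HasDerivAt (fun s => gW (γ s)) 0 0 := by
      have h3 : DifferentiableAt ℝ (fun s => gW (γ s)) 0 :=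
        ((gW_smooth.comp hγ).differentiable (by simp)).differentiableAt
      have h4 := h3.hasDerivAt
      rwa [h0] at h4
    have h5 : HasFDerivAt sg (fderiv ℝ sg (gW (γ 0))) (gW (γ 0)) :=
      ((sg_smooth h).differentiable (by simp)).differentiableAt.hasFDerivAt
    have h6 := h5.comp_hasDerivAt (0 : ℝ) h2
    rw [map_zero] at h6
    rw [h1]
    exact h6.deriv
  · apply Set.Subset.antisymm
    · rintro z ⟨w, hw, rfl⟩
      refine ⟨hw.1, ?_⟩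
      rw [← a0_eq h w hw, ← a1_eq h w hw]
      exact hw.2.2.2.2.2
    · intro z hz
      exact ⟨sg z, sg_mem h z hz, gW_sg z⟩

end Pool.Agent.Helper4.AC
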