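import Pool.Agent.Helper40.AC.Stmts

/-!
Project AC (MP_4c91e2_ag), packet P21: real polynomials on `ℝ¹³` become, up to a unit, complex
polynomials in the chart.
-/

open scoped ContDiff Topology Matrix Kronecker TensorProduct

namespace Pool.Agent.Helper4.AC

open Pool.Agent.Helper40.AC

theorem psi_left (z : Idx → ℝ) (j : Fin 4) :
    Psi z (Fin.castAdd 4 j) = (cc z j : ℂ) + (ss z j : ℂ) * Complex.I := by
  simp [Psi]

theorem psi_right (z : Idx → ℝ) (k : Fin 4) :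
    Psi z (Fin.natAdd 4 k) = ((vv z k / (1 + ww z 4) : ℝ) : ℂ) := by
  have h1 : ¬ ((Fin.natAdd 4 k).1 < 4) := by simp
  have h2 : (⟨(Fin.natAdd 4 k).1 - 4, by omega⟩ : Fin 5) = k.castSucc := by
    apply Fin.ext
    simp
  unfold Psi vv
  rw [dif_neg h1, h2]

/-- The product of the first four variables. -/
noncomputable def PX : MvPolynomial (Fin 8) ℂ := ∏ j : Fin 4, MvPolynomial.X (Fin.castAdd 4 j)

/-- The sum of squares of the last four variables. -/
noncomputable def SY : MvPolynomial (Fin 8) ℂ := ∑ k : Fin 4, MvPolynomial.X (Fin.natAdd 4 k) ^ 2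

theorem eval_PX (z : Idx → ℝ) : MvPolynomial.eval (Psi z) PX =
    ∏ j : Fin 4, ((cc z j : ℂ) + (ss z j : ℂ) * Complex.I) := by
  simp only [PX, map_prod, MvPolynomial.eval_X, psi_left]

theorem eval_SY (z : Idx → ℝ) : MvPolynomial.eval (Psi z) SY =
    ∑ k : Fin 4, ((vv z k / (1 + ww z 4) : ℝ) : ℂ) ^ 2 := by
  simp only [SY, map_sum, map_pow, MvPolynomial.eval_X, psi_right]

theorem uu_eq (z : Idx → ℝ) : MvPolynomial.eval (Psi z) (PX * (1 + SY)) = uu z := by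
  rw [map_mul, map_add, map_one, eval_PX, eval_SY]
  rfl

theorem sum_y (z : Idx → ℝ) (hz : z ∈ VV) (h : 1 + ww z 4 ≠ 0) :
    ∑ k : Fin 4, (vv z k / (1 + ww z 4)) ^ 2 = (1 - ww z 4) / (1 + ww z 4) := by
  have h1 := hz.2
  rw [Fin.sum_univ_castSucc] at h1
  have h2 : ww z (Fin.last 4) = ww z 4 := rfl
  rw [h2] at h1
  have h3 : ∑ k : Fin 4, (vv z k / (1 + ww z 4)) ^ 2 =
      (∑ k : Fin 4, ww z k.castSucc ^ 2) / (1 + ww z 4) ^ 2 := by
    rw [Finset.sum_div]
    exact Finset.sum_congr rfl fun k _ => div_pow _ _ _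
  rw [h3, div_eq_div_iff (pow_ne_zero 2 h) h]
  have h4 : ∑ k : Fin 4, ww z k.castSucc ^ 2 = 1 - ww z 4 ^ 2 := by linarith
  rw [h4]
  ring

theorem sum_yC (z : Idx → ℝ) (hz : z ∈ VV) (h : 1 + ww z 4 ≠ 0) :
    ∑ k : Fin 4, ((vv z k / (1 + ww z 4) : ℝ) : ℂ) ^ 2 =
      (1 - (ww z 4 : ℂ)) / (1 + (ww z 4 : ℂ)) := by
  have h1 := congrArg (fun r : ℝ => (r : ℂ)) (sum_y z hz h)
  push_cast at h1 ⊢
  exact h1

theorem xx (z : Idx → ℝ) (hz : z ∈ VV) (j : Fin 4) :
    (cc z j : ℂ) ^ 2 + (ss z j : ℂ) ^ 2 = 1 := by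
  have h1 := congrArg (fun r : ℝ => (r : ℂ)) (hz.1 j)
  push_cast at h1
  exact h1

theorem coord (i : Idx) : ∃ N : MvPolynomial (Fin 8) ℂ, ∀ z ∈ VV, 1 + ww z 4 ≠ 0 →
    MvPolynomial.eval (Psi z) N = uu z * (z i : ℂ) := by
  rcases i with j | j | k
  · refine ⟨MvPolynomial.C (1 / 2) * (MvPolynomial.X (Fin.castAdd 4 j) ^ 2 + 1) *
      (∏ l ∈ Finset.univ.erase j, MvPolynomial.X (Fin.castAdd 4 l)) * (1 + SY), ?_⟩
    intro z hz h
    rw [← uu_eq]
    have h1 : (PX : MvPolynomial (Fin 8) ℂ) = MvPolynomial.X (Fin.castAdd 4 j) *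
        ∏ l ∈ Finset.univ.erase j, MvPolynomial.X (Fin.castAdd 4 l) :=
      (Finset.mul_prod_erase Finset.univ (fun l : Fin 4 =>
        (MvPolynomial.X (Fin.castAdd 4 l) : MvPolynomial (Fin 8) ℂ)) (Finset.mem_univ j)).symm
    rw [h1]
    simp only [map_mul, map_add, map_one, map_pow, MvPolynomial.eval_C, MvPolynomial.eval_X,
      psi_left]
    have h2 : (1 / 2 : ℂ) * (((cc z j : ℂ) + (ss z j : ℂ) * Complex.I) ^ 2 + 1) =
        ((cc z j : ℂ) + (ss z j : ℂ) * Complex.I) * (cc z j : ℂ) := by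
      linear_combination (1 / 2 : ℂ) * (-(xx z hz j)) + (1 / 2 : ℂ) * (ss z j : ℂ) ^ 2 * Complex.I_sq
    rw [h2]
    have h3 : z (Sum.inl j) = cc z j := rfl
    rw [h3]
    ring
  · refine ⟨MvPolynomial.C (-(Complex.I / 2)) * (MvPolynomial.X (Fin.castAdd 4 j) ^ 2 - 1) *
      (∏ l ∈ Finset.univ.erase j, MvPolynomial.X (Fin.castAdd 4 l)) * (1 + SY), ?_⟩
    intro z hz h
    rw [← uu_eq]
    have h1 : (PX : MvPolynomial (Fin 8) ℂ) = MvPolynomial.X (Fin.castAdd 4 j) *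
        ∏ l ∈ Finset.univ.erase j, MvPolynomial.X (Fin.castAdd 4 l) :=
      (Finset.mul_prod_erase Finset.univ (fun l : Fin 4 =>
        (MvPolynomial.X (Fin.castAdd 4 l) : MvPolynomial (Fin 8) ℂ)) (Finset.mem_univ j)).symm
    rw [h1]
    simp only [map_mul, map_add, map_sub, map_one, map_pow, MvPolynomial.eval_C,
      MvPolynomial.eval_X, psi_left]
    have h2 : -(Complex.I / 2) * (((cc z j : ℂ) + (ss z j : ℂ) * Complex.I) ^ 2 - 1) =
        ((cc z j : ℂ) + (ss z j : ℂ) * Complex.I) * (ss z j : ℂ) := by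
      have h4 := xx z hz j
      have h5 := Complex.I_sq
      linear_combination (-(Complex.I / 2)) * h4 + (-(cc z j : ℂ) * (ss z j : ℂ) -
        (Complex.I / 2) * (ss z j : ℂ) ^ 2) * h5
    rw [h2]
    have h3 : z (Sum.inr (Sum.inl j)) = ss z j := rfl
    rw [h3]
    ring
  · refine Fin.lastCases ?_ (fun k => ?_) k
    · refine ⟨PX * (1 - SY), ?_⟩
      intro z hz h
      rw [← uu_eq]
      have h3 : z (Sum.inr (Sum.inr (Fin.last 4))) = ww z 4 := rfl
      rw [h3]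
      simp only [map_mul, map_add, map_sub, map_one, eval_SY, sum_yC z hz h]
      have h4 : (1 + (ww z 4 : ℂ)) ≠ 0 := by
        exact_mod_cast h
      field_simp
      ring
    · refine ⟨PX * (MvPolynomial.C 2 * MvPolynomial.X (Fin.natAdd 4 k)), ?_⟩
      intro z hz h
      rw [← uu_eq]
      have h3 : z (Sum.inr (Sum.inr (Fin.castSucc k))) = vv z k := rfl
      rw [h3]
      simp only [map_mul, map_add, map_one, eval_SY, sum_yC z hz h, MvPolynomial.eval_C,
        MvPolynomial.eval_X, psi_right]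
      have h4 : (1 + (ww z 4 : ℂ)) ≠ 0 := by
        exact_mod_cast h
      push_cast
      field_simp
      ring

theorem poly_ok : S_POLY := by
  intro Q
  induction Q using MvPolynomial.induction_on with
  | C a =>
    refine ⟨0, MvPolynomial.C (a : ℂ), fun z _ _ => ?_⟩
    simp
  | add p q hp hq =>
    obtain ⟨d1, F1, h1⟩ := hp
    obtain ⟨d2, F2, h2⟩ := hq
    refine ⟨d1 + d2, (PX * (1 + SY)) ^ d2 * F1 + (PX * (1 + SY)) ^ d1 * F2, fun z hz h => ?_⟩
    rw [map_add, map_mul, map_mul, map_pow, map_pow, uu_eq, h1 z hz h, h2 z hz h, map_add]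
    push_cast
    ring
  | mul_X p i hp =>
    obtain ⟨d, F, hF⟩ := hp
    obtain ⟨N, hN⟩ := coord i
    refine ⟨d + 1, F * N, fun z hz h => ?_⟩
    rw [map_mul, hF z hz h, hN z hz h, map_mul, MvPolynomial.eval_X]
    push_cast
    ring

end Pool.Agent.Helper4.AC
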